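import Mathlib
import Pool.Agent.H759R2.Kad.Props
import Pool.Agent.H759R2.Kad.Props2
import Pool.Agent.H342R2.Kad.Det

open scoped ComplexOrder InnerProductSpace ComplexConjugate
open Finset

noncomputable section

namespace H759R2.Kad

universe u v

theorem det2_coef (z : ℂ) (hz : conj z * z = 1) {n q g Q : ℕ} (h : n + Q = g + q) :
    z ^ (n + 1) * conj (z ^ (q + 1)) = conj (z ^ Q) * z ^ g := by
  rw [map_pow, map_pow]
  have h1 : (conj z * z) ^ Q = 1 := by rw [hz, one_pow]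
  have h2 : (conj z * z) ^ (q + 1) = 1 := by rw [hz, one_pow]
  calc z ^ (n + 1) * conj z ^ (q + 1)
      = z ^ (n + 1) * conj z ^ (q + 1) * (conj z * z) ^ Q := by rw [h1, mul_one]
    _ = conj z ^ Q * z ^ (n + Q + 1) * conj z ^ (q + 1) := by rw [mul_pow]; ring
    _ = conj z ^ Q * z ^ (g + q + 1) * conj z ^ (q + 1) := by rw [h]
    _ = conj z ^ Q * z ^ g * (conj z * z) ^ (q + 1) := by rw [mul_pow]; ring
    _ = conj z ^ Q * z ^ g := by rw [h2, mul_one]

theorem prove2_det : T2_det.{u, v} := by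
  intro B _ _ _ K _ _ _ w hw t ht ht1 a b ha hb hX U hU θ Q hQ
  obtain ⟨z, hz1, hz⟩ := det_orth (3 * Q) (by omega)
  have hUU : star U * U = 1 := (Unitary.mem_iff.1 hU).1
  have hUU' : U * star U = 1 := (Unitary.mem_iff.1 hU).2
  have hpow : ∀ n : ℕ, star (U ^ n) * U ^ n = 1 := by
    intro n
    exact (Unitary.mem_iff.1 (pow_mem hU n)).1
  have hpow' : ∀ n : ℕ, U ^ n * star (U ^ n) = 1 := by
    intro n
    exact (Unitary.mem_iff.1 (pow_mem hU n)).2
  have hnormU : ∀ n : ℕ, ‖U ^ n‖ ≤ 1 := by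
    intro n
    rcases subsingleton_or_nontrivial B with hs | hs
    · rw [Subsingleton.elim (U ^ n) 0]
      simp
    · exact (CStarRing.norm_of_mem_unitary (pow_mem hU n)).le
  have hQ0 : (0 : ℝ) < Q := by exact_mod_cast hQ
  have hzc : ∀ r, conj (z r) * z r = 1 := by
    intro r
    rw [mul_comm, Complex.mul_conj, Complex.normSq_eq_norm_sq, hz1]
    simp
  -- the vectors
  set vv : ℕ → K := fun j => w (star (U ^ Q) * U ^ j) θ with hvv
  set bv : ℕ → K := fun q => w (star U ^ (q + 1)) θ with hbv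
  set ξ : ℕ → K := fun r => ∑ q ∈ range Q, conj (z r ^ (q + 1)) • bv q with hξ
  set X : ℕ → B := fun r => ∑ n ∈ range (2 * Q - 1), z r ^ (n + 1) • U ^ (n + 1) with hXdef
  have hvb : ∀ n q g : ℕ, n + Q = g + q → w (U ^ (n + 1)) (bv q) = vv g := by
    intro n q g h
    rw [hbv, hvv]
    simp only
    have h0 : w (U ^ (n + 1)) (w (star U ^ (q + 1)) θ) = w (U ^ (n + 1) * star U ^ (q + 1)) θ := by
      rw [hw.mul]
      rfl
    rw [h0]
    congr 2
    -- U^(n+1) * star U^(q+1) = star (U^Q) * U^g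
    have h1 : U ^ (n + 1) = star (U ^ Q) * U ^ (Q + (n + 1)) := by
      rw [pow_add U Q, ← mul_assoc, hpow, one_mul]
    have h2 : Q + (n + 1) = g + (q + 1) := by omega
    rw [h1, h2, pow_add U g (q + 1), ← star_pow, mul_assoc, mul_assoc, hpow', mul_one]
  have hξs : ∑ r ∈ range (3 * Q), ‖ξ r‖ ^ 2 = (3 * Q : ℕ) * ∑ q ∈ range Q, ‖bv q‖ ^ 2 := by
    have h1 := det_pars (3 * Q) Q (fun r q => conj (z r ^ (q + 1))) bv (by
      intro p hp q hq
      rw [mem_range] at hp hq
      have h2 := hz (q + 1) (p + 1) (by omega) (by omega)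
      have h3 : ∀ r ∈ range (3 * Q), conj (conj (z r ^ (p + 1))) * conj (z r ^ (q + 1)) =
          conj (z r ^ (q + 1)) * z r ^ (p + 1) := by
        intro r _
        rw [Complex.conj_conj, mul_comm]
      rw [sum_congr rfl h3, h2]
      by_cases hpq : p = q
      · rw [if_pos hpq, if_pos (by omega)]
      · rw [if_neg hpq, if_neg (by omega)])
    rw [hξ]
    simp only
    rw [h1]
  -- the grouped form
  set s : Finset (ℕ × ℕ) := range (2 * Q - 1) ×ˢ range Q with hs
  set N : ℕ → ℕ := fun j => (s.filter (fun x : ℕ × ℕ => x.1 + Q - x.2 = j)).card with hN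
  have hgr : ∀ r, w (X r) (ξ r) =
      conj (z r ^ Q) • ∑ j ∈ range (3 * Q), z r ^ j • ((N j : ℂ) • vv j) := by
    intro r
    have h1 : w (X r) (ξ r) = ∑ x ∈ s, (conj (z r ^ Q) * z r ^ (x.1 + Q - x.2)) •
        vv (x.1 + Q - x.2) := by
      rw [hs, sum_product, hXdef, hξ]
      simp only [map_sum, map_smul]
      rw [sum_comm]
      refine sum_congr rfl fun q hq => ?_
      rw [_root_.sum_apply, smul_sum]
      refine sum_congr rfl fun n hn => ?_
      rw [mem_range] at hq hn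
      have hg : n + Q = (n + Q - q) + q := by omega
      rw [smul_apply, hvb n q (n + Q - q) hg, smul_smul, ← det2_coef (z r) (hzc r) hg, mul_comm]
    rw [h1, smul_sum]
    have h2 : ∀ x ∈ s, x.1 + Q - x.2 ∈ range (3 * Q) := by
      intro x hx
      rw [hs, mem_product, mem_range, mem_range] at hx
      rw [mem_range]
      omega
    rw [← sum_fiberwise_of_maps_to h2]
    refine sum_congr rfl fun j _ => ?_
    have h3 : ∀ x ∈ s.filter (fun x : ℕ × ℕ => x.1 + Q - x.2 = j),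
        (conj (z r ^ Q) * z r ^ (x.1 + Q - x.2)) • vv (x.1 + Q - x.2) =
        (conj (z r ^ Q) * z r ^ j) • vv j := by
      intro x hx
      rw [(mem_filter.1 hx).2]
    rw [sum_congr rfl h3, sum_const, ← Nat.cast_smul_eq_nsmul ℂ, smul_smul, smul_smul, smul_smul,
      hN]
    congr 1
    ring
  have hNQ : ∀ k ∈ range Q, Q ≤ N (k + Q) := by
    intro k hk
    rw [mem_range] at hk
    rw [hN]
    simp only
    have h1 : ((range Q).image (fun q : ℕ => (k + q, q))) ⊆
        s.filter (fun x : ℕ × ℕ => x.1 + Q - x.2 = k + Q) := by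
      intro x hx
      rw [mem_image] at hx
      obtain ⟨q, hq, rfl⟩ := hx
      rw [mem_range] at hq
      rw [mem_filter, hs, mem_product, mem_range, mem_range]
      refine ⟨⟨?_, hq⟩, ?_⟩
      · show k + q < 2 * Q - 1
        omega
      · show k + q + Q - q = k + Q
        omega
    refine le_trans ?_ (card_le_card h1)
    rw [card_image_of_injective, card_range]
    intro x y hxy
    exact (Prod.ext_iff.1 hxy).2
  have hws : ∑ r ∈ range (3 * Q), ‖w (X r) (ξ r)‖ ^ 2 =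
      (3 * Q : ℕ) * ∑ j ∈ range (3 * Q), ‖(N j : ℂ) • vv j‖ ^ 2 := by
    have h1 := det_pars (3 * Q) (3 * Q) (fun r p => z r ^ p) (fun j => (N j : ℂ) • vv j) (by
      intro p hp q hq
      rw [mem_range] at hp hq
      exact hz p q hp hq)
    rw [← h1]
    refine sum_congr rfl fun r _ => ?_
    rw [hgr r, norm_smul, Complex.norm_conj, norm_pow, hz1, one_pow, one_mul]
  have hlow : (Q : ℝ) ^ 2 * ∑ k ∈ range Q, ‖w (U ^ k) θ‖ ^ 2 ≤
      ∑ j ∈ range (3 * Q), ‖(N j : ℂ) • vv j‖ ^ 2 := by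
    have h1 : ∑ j ∈ (range Q).image (fun k => k + Q), ‖(N j : ℂ) • vv j‖ ^ 2 ≤
        ∑ j ∈ range (3 * Q), ‖(N j : ℂ) • vv j‖ ^ 2 := by
      apply sum_le_sum_of_subset_of_nonneg
      · intro j hj
        rw [mem_image] at hj
        obtain ⟨k, hk, rfl⟩ := hj
        rw [mem_range] at hk ⊢
        omega
      · intro j _ _
        positivity
    refine le_trans ?_ h1
    rw [sum_image (by intro x _ y _ h; simpa using h), mul_sum]
    refine sum_le_sum fun k hk => ?_
    have h2 : vv (k + Q) = w (U ^ k) θ := by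
      rw [hvv]
      simp only
      congr 2
      rw [add_comm k Q, pow_add, ← mul_assoc, hpow, one_mul]
    rw [h2, norm_smul, mul_pow, Complex.norm_natCast]
    have h3 : (Q : ℝ) ≤ N (k + Q) := by exact_mod_cast hNQ k hk
    exact mul_le_mul_of_nonneg_right (pow_le_pow_left₀ hQ0.le h3 2) (sq_nonneg _)
  -- bounds for `X r`
  set C : ℝ := 2 * Q * (t 1).re + 4 * Q * ∑ k ∈ range (2 * Q), ‖t (U ^ (k + 1))‖ with hC
  have hXn : ∀ r, ‖X r‖ ≤ 2 * Q := by
    intro r
    rw [hXdef]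
    simp only
    refine (norm_sum_le _ _).trans ?_
    have h1 : ∑ n ∈ range (2 * Q - 1), ‖z r ^ (n + 1) • U ^ (n + 1)‖ ≤
        ∑ n ∈ range (2 * Q - 1), (1 : ℝ) := by
      refine sum_le_sum fun n _ => ?_
      rw [norm_smul, norm_pow, hz1, one_pow, one_mul]
      exact hnormU _
    refine h1.trans ?_
    rw [sum_const, card_range, nsmul_eq_mul, mul_one]
    have h2 : ((2 * Q - 1 : ℕ) : ℝ) ≤ ((2 * Q : ℕ) : ℝ) := by
      exact_mod_cast Nat.sub_le _ _
    refine h2.trans ?_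
    push_cast
    exact le_refl _
  have hXt : ∀ r, (t (star (X r) * X r)).re ≤ C := by
    intro r
    have h1 : t (star (X r) * X r) = ∑ n ∈ range (2 * Q - 1), ∑ m ∈ range (2 * Q - 1),
        (conj (z r ^ (n + 1)) * z r ^ (m + 1)) * t (star (U ^ (n + 1)) * U ^ (m + 1)) := by
      rw [hXdef]
      simp only
      rw [star_sum, sum_mul_sum, map_sum]
      refine sum_congr rfl fun n _ => ?_
      rw [map_sum]
      refine sum_congr rfl fun m _ => ?_
      rw [star_smul, smul_mul_smul_comm, map_smul, smul_eq_mul]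
      rfl
    have hzz : ∀ n, conj (z r ^ n) * z r ^ n = 1 := by
      intro n
      rw [mul_comm, Complex.mul_conj, Complex.normSq_eq_norm_sq, norm_pow, hz1]
      simp
    have hnz : ∀ n m, ‖conj (z r ^ n) * z r ^ m‖ = 1 := by
      intro n m
      rw [norm_mul, Complex.norm_conj, norm_pow, norm_pow, hz1]
      simp
    have h2 : ∀ n m, ((conj (z r ^ (n + 1)) * z r ^ (m + 1)) *
        t (star (U ^ (n + 1)) * U ^ (m + 1))).re ≤
        (if n = m then (t 1).re else 0) +
        ((if n < m then ‖t (U ^ (m - n))‖ else 0) + (if m < n then ‖t (U ^ (n - m))‖ else 0)) := by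
      intro n m
      rcases lt_trichotomy n m with h | h | h
      · rw [if_neg h.ne, if_pos h, if_neg h.not_gt, zero_add, add_zero]
        have h3 : star (U ^ (n + 1)) * U ^ (m + 1) = U ^ (m - n) := by
          have h4 : m + 1 = (n + 1) + (m - n) := by omega
          rw [h4, pow_add U (n + 1) (m - n), ← mul_assoc, hpow, one_mul]
        rw [h3]
        refine (Complex.re_le_norm _).trans ?_
        rw [norm_mul, hnz, one_mul]
      · subst h
        rw [if_pos rfl, if_neg (lt_irrefl _), hzz, hpow, one_mul, add_zero, add_zero]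
      · rw [if_neg h.ne', if_neg h.not_gt, if_pos h, zero_add, zero_add]
        have h3 : star (U ^ (n + 1)) * U ^ (m + 1) = star (U ^ (n - m)) := by
          have h4 : n + 1 = (m + 1) + (n - m) := by omega
          rw [h4, pow_add U (m + 1) (n - m), star_mul, mul_assoc, hpow, mul_one]
        rw [h3]
        refine (Complex.re_le_norm _).trans ?_
        rw [norm_mul, hnz, one_mul, ht, Complex.norm_conj]
    have hSg0 : 0 ≤ ∑ k ∈ range (2 * Q), ‖t (U ^ (k + 1))‖ := sum_nonneg fun _ _ => norm_nonneg _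
    have hM : ((2 * Q - 1 : ℕ) : ℝ) ≤ 2 * Q := by
      have h3 : ((2 * Q - 1 : ℕ) : ℝ) ≤ ((2 * Q : ℕ) : ℝ) := by
        exact_mod_cast Nat.sub_le _ _
      refine h3.trans ?_
      push_cast
      exact le_refl _
    rw [h1, Complex.re_sum]
    have h5 : ∀ n ∈ range (2 * Q - 1), (∑ m ∈ range (2 * Q - 1),
        (conj (z r ^ (n + 1)) * z r ^ (m + 1)) * t (star (U ^ (n + 1)) * U ^ (m + 1))).re ≤
        (t 1).re + 2 * ∑ k ∈ range (2 * Q), ‖t (U ^ (k + 1))‖ := by
      intro n hn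
      rw [Complex.re_sum]
      refine (sum_le_sum fun m _ => h2 n m).trans ?_
      rw [sum_add_distrib, sum_add_distrib, sum_ite_eq, if_pos hn]
      have h6 := det_count1 (fun k => ‖t (U ^ k)‖) (fun k => norm_nonneg _) (2 * Q - 1) (2 * Q) n
        (by omega)
      have h7 := det_count2 (fun k => ‖t (U ^ k)‖) (fun k => norm_nonneg _) (2 * Q - 1) (2 * Q) n
        (by omega) (mem_range.1 hn)
      linarith
    refine (sum_le_sum h5).trans ?_
    rw [sum_const, card_range, nsmul_eq_mul, hC]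
    have h8 : ((2 * Q - 1 : ℕ) : ℝ) * ((t 1).re + 2 * ∑ k ∈ range (2 * Q), ‖t (U ^ (k + 1))‖) ≤
        (2 * Q) * ((t 1).re + 2 * ∑ k ∈ range (2 * Q), ‖t (U ^ (k + 1))‖) :=
      mul_le_mul_of_nonneg_right hM (by positivity)
    refine h8.trans (le_of_eq ?_)
    ring
  have hE : ∀ r ∈ range (3 * Q), ‖w (X r) (ξ r)‖ ^ 2 ≤ ‖ξ r‖ ^ 2 * (4 * Q ^ 2 * a + b * C) := by
    intro r _
    refine (hX (X r) (ξ r)).trans ?_
    apply mul_le_mul_of_nonneg_left _ (sq_nonneg _)
    have h1 : ‖X r‖ ^ 2 ≤ (2 * (Q : ℝ)) ^ 2 := pow_le_pow_left₀ (norm_nonneg _) (hXn r) 2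
    have h2 := mul_le_mul_of_nonneg_left h1 ha
    have h3 := mul_le_mul_of_nonneg_left (hXt r) hb
    nlinarith
  have hfin := sum_le_sum hE
  rw [← sum_mul, hξs, hws] at hfin
  have h3Q : (0 : ℝ) < ((3 * Q : ℕ) : ℝ) := by
    have : 0 < 3 * Q := by omega
    exact_mod_cast this
  have h10 : (Q : ℝ) ^ 2 * ∑ k ∈ range Q, ‖w (U ^ k) θ‖ ^ 2 ≤
      (∑ q ∈ range Q, ‖bv q‖ ^ 2) * (4 * Q ^ 2 * a + b * C) := by
    refine hlow.trans ?_
    rw [mul_assoc] at hfin
    exact le_of_mul_le_mul_left hfin h3Q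
  have h11 : (Q : ℝ) * ((Q : ℝ) * ∑ k ∈ range Q, ‖w (U ^ k) θ‖ ^ 2) ≤
      (Q : ℝ) * ((4 * Q ^ 2 * a + b * C) * ((1 / (Q : ℝ)) * ∑ q ∈ range Q, ‖bv q‖ ^ 2)) := by
    have e1 : (Q : ℝ) * ((4 * Q ^ 2 * a + b * C) * ((1 / (Q : ℝ)) * ∑ q ∈ range Q, ‖bv q‖ ^ 2)) =
        (∑ q ∈ range Q, ‖bv q‖ ^ 2) * (4 * Q ^ 2 * a + b * C) := by
      field_simp
    rw [e1]
    refine le_trans (le_of_eq ?_) h10
    ring
  exact le_of_mul_le_mul_left h11 hQ0

end H759R2.Kad
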